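import Pool.Agent.N805.VP.Base

/-! # From unions of cells to products of cells, an even number of points -/

set_option autoImplicit false

open MeasureTheory Set Filter Topology

namespace Pool.Agent.N342.VP

open Pool.Agent.N805.VP

lemma cells_bdd {h : ℝ} (hh : 0 < h) {k : ℕ} (g : Fin k → ℤ) :
    ∃ b : ℝ, ∀ i, cell h (g i) ⊆ Icc (-b) b := by
  refine ⟨(∑ i, |(g i : ℝ)| * h) + h, fun i => cell_bdd hh ?_⟩
  exact Finset.single_le_sum (f := fun i => |(g i : ℝ)| * h) (fun _ _ => by positivity)
    (Finset.mem_univ i)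

/-- a product of cells with a repetition has a small integral -/
lemma G_noninj (hD : S_DET) {h : ℝ} (hh : 0 < h) {k : ℕ} (g : Fin k → ℤ)
    (hg : ¬ Function.Injective g) : G (fun i => cell h (g i)) ≤ 4 * h ^ (k + 2) := by
  unfold Function.Injective at hg
  push Not at hg
  obtain ⟨i, j, hij, hne⟩ := hg
  have h1 := G_le_of (c := fun i => cell h (g i)) (fun i => cell_meas h (g i)) (cells_bdd hh g)
    (M := 4 * h ^ 2) (by
      intro q hq
      have h2 := hq i (mem_univ i)
      have h3 := hq j (mem_univ j)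
      simp only [cell] at h2 h3
      rw [hij] at h2
      have h4 : (q i - q j) ^ 2 ≤ h ^ 2 := by
        rw [sq_le_sq, abs_of_pos hh, abs_le]
        constructor <;> nlinarith [h2.1, h2.2, h3.1, h3.2]
      have h5 := (hD k q).2.2 i j hne
      linarith)
  simp_rw [cell_vol h hh.le] at h1
  rw [Finset.prod_const, Finset.card_univ, Fintype.card_fin] at h1
  calc _ ≤ _ := h1
    _ = 4 * h ^ (k + 2) := by ring

lemma num_bound {r : ℕ} (hr : 1 ≤ r) (m : ℕ) :
    (1 / (r : ℝ)) ^ (m + 2) ≤ 1 / (r : ℝ) ^ m / Real.sqrt r := by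
  have h1 : (1 : ℝ) ≤ r := by exact_mod_cast hr
  have h0 : (0 : ℝ) < r := by linarith
  have h2 : Real.sqrt r ≤ (r : ℝ) ^ 2 := by
    rw [Real.sqrt_le_left (by positivity)]
    calc (r : ℝ) = (r : ℝ) ^ 1 := (pow_one _).symm
      _ ≤ (r : ℝ) ^ 4 := pow_le_pow_right₀ h1 (by norm_num)
      _ = ((r : ℝ) ^ 2) ^ 2 := by ring
  have h3 : 0 < Real.sqrt r := Real.sqrt_pos.2 h0
  have h4 : (1 / (r : ℝ)) ^ (m + 2) = 1 / (r : ℝ) ^ m / (r : ℝ) ^ 2 := by
    rw [one_div, inv_pow, pow_add]
    field_simp
  rw [h4]
  exact div_le_div_of_nonneg_left (by positivity) h3 h2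

theorem CELE : S_CELE := by
  classical
  intro hD hS hY l J x X hX m hm hU b
  refine ⟨4 * (m : ℝ) ^ m, by positivity, ?_⟩
  intro r hr f hf ε hε
  have hr0 : (0 : ℝ) < r := by
    have : (1 : ℝ) ≤ r := by exact_mod_cast hr
    linarith
  obtain ⟨h, hh⟩ : ∃ h : ℝ, h = 1 / (r : ℝ) := ⟨_, rfl⟩
  have hh0 : 0 < h := by rw [hh]; positivity
  have hnum : 4 * (m : ℝ) ^ m * h ^ (m + 2) ≤ 4 * (m : ℝ) ^ m / (r : ℝ) ^ m / Real.sqrt r := by
    have h1 := num_bound hr m
    rw [← hh] at h1
    calc 4 * (m : ℝ) ^ m * h ^ (m + 2) ≤ 4 * (m : ℝ) ^ m * (1 / (r : ℝ) ^ m / Real.sqrt r) :=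
          mul_le_mul_of_nonneg_left h1 (by positivity)
      _ = 4 * (m : ℝ) ^ m / (r : ℝ) ^ m / Real.sqrt r := by ring
  obtain ⟨A, hA⟩ : ∃ A : Finset ℤ, A = Finset.univ.image f := ⟨_, rfl⟩
  have hAc : A.card ≤ m := by
    rw [hA]
    refine Finset.card_image_le.trans ?_
    simp
  have hfA : f ∈ Fintype.piFinset (fun _ : Fin m => A) := by
    rw [Fintype.mem_piFinset]
    intro i
    rw [hA]
    exact Finset.mem_image_of_mem f (Finset.mem_univ i)
  have hcard : ((Fintype.piFinset (fun _ : Fin m => A)).card : ℝ) ≤ (m : ℝ) ^ m := by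
    rw [Fintype.card_piFinset, Finset.prod_const, Finset.card_univ, Fintype.card_fin]
    push_cast
    exact pow_le_pow_left₀ (Nat.cast_nonneg _) (by exact_mod_cast hAc) m
  have hspl : ∀ T, mom (J T) (x T) (fun _ : Fin m => U h A) =
      ∑ g ∈ Fintype.piFinset (fun _ : Fin m => A), mom (J T) (x T) (fun i => cell h (g i)) ∧
      G (fun _ : Fin m => U h A) =
      ∑ g ∈ Fintype.piFinset (fun _ : Fin m => A), G (fun i => cell h (g i)) := by
    intro T
    have h1 := hS.1 ℤ (J T) (x T) (cell h) A (by
      intro a _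
      refine ⟨cell_meas h a, |(a : ℝ)| * h + h, cell_bdd hh0 le_rfl⟩)
      (fun a _ b _ hab => cell_disj hh0 (mem_univ a) (mem_univ b) hab) m
    have h2 : U h A = ⋃ a ∈ A, cell h a := rfl
    rw [h2]
    convert h1 using 3
  have hGn : ∀ g : Fin m → ℤ, 0 ≤ G (fun i => cell h (g i)) := fun g =>
    G_nonneg hD fun i => cell_meas h (g i)
  -- sums over non-injective maps
  have hsum : ∀ B : Finset (Fin m → ℤ), B ⊆ Fintype.piFinset (fun _ : Fin m => A) →
      (∀ g ∈ B, ¬ Function.Injective g) → ∑ g ∈ B, G (fun i => cell h (g i)) ≤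
        4 * (m : ℝ) ^ m * h ^ (m + 2) := by
    intro B hB hB'
    calc ∑ g ∈ B, G (fun i => cell h (g i)) ≤ ∑ _g ∈ B, 4 * h ^ (m + 2) :=
          Finset.sum_le_sum fun g hg => G_noninj hD hh0 g (hB' g hg)
      _ = B.card * (4 * h ^ (m + 2)) := by rw [Finset.sum_const, nsmul_eq_mul]
      _ ≤ (m : ℝ) ^ m * (4 * h ^ (m + 2)) := by
          refine mul_le_mul_of_nonneg_right ?_ (by positivity)
          refine le_trans ?_ hcard
          exact_mod_cast Finset.card_le_card hB
      _ = 4 * (m : ℝ) ^ m * h ^ (m + 2) := by ring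
  have hUA := hU r hr A ε hε
  rw [← hh] at hUA
  filter_upwards [hUA, hX] with T hT hXT
  rw [one_mul] at hT ⊢
  rw [← hh]
  have hmn : ∀ g : Fin m → ℤ, 0 ≤ mom (J T) (x T) (fun i => cell h (g i)) / X T := fun g =>
    div_nonneg (mom_nonneg _) hXT.le
  by_cases hinj : Function.Injective f
  · have h1 := hY m (fun g => mom (J T) (x T) (fun i => cell h (g i)) / X T -
      G (fun i => cell h (g i))) (by
        intro σ g
        have h2 := hS.2 (J T) (x T) m σ (fun i => cell h (g i))
        simp only
        rw [h2.1, h2.2]) f hinj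
    have h2 : ∑ g ∈ Fintype.piFinset (fun _ : Fin m => A),
        (mom (J T) (x T) (fun i => cell h (g i)) / X T - G (fun i => cell h (g i))) =
        mom (J T) (x T) (fun _ : Fin m => U h A) / X T - G (fun _ : Fin m => U h A) := by
      rw [Finset.sum_sub_distrib, ← Finset.sum_div, ← (hspl T).1, ← (hspl T).2]
    have h4 : -(4 * (m : ℝ) ^ m * h ^ (m + 2)) ≤
        ∑ g ∈ (Fintype.piFinset (fun _ : Fin m => A)).filter (fun g => ¬ Function.Injective g),
        (mom (J T) (x T) (fun i => cell h (g i)) / X T - G (fun i => cell h (g i))) := by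
      have h5 := hsum ((Fintype.piFinset (fun _ : Fin m => A)).filter
        (fun g => ¬ Function.Injective g)) (Finset.filter_subset _ _)
        (fun g hg => (Finset.mem_filter.1 hg).2)
      have h6 : ∑ g ∈ (Fintype.piFinset (fun _ : Fin m => A)).filter
          (fun g => ¬ Function.Injective g), (- G (fun i => cell h (g i))) ≤
          ∑ g ∈ (Fintype.piFinset (fun _ : Fin m => A)).filter (fun g => ¬ Function.Injective g),
          (mom (J T) (x T) (fun i => cell h (g i)) / X T - G (fun i => cell h (g i))) :=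
        Finset.sum_le_sum fun g _ => by linarith [hmn g]
      rw [Finset.sum_neg_distrib] at h6
      linarith
    have h7 : (m.factorial : ℝ) * (mom (J T) (x T) (fun i => cell h (f i)) / X T -
        G (fun i => cell h (f i))) ≤ ε + 4 * (m : ℝ) ^ m * h ^ (m + 2) := by
      rw [← hA] at h1
      rw [h2] at h1
      have h8 : ∑ g ∈ (Fintype.piFinset (fun _ : Fin m => A)).filter
          (fun g => ¬ Function.Injective g),
          (mom (J T) (x T) (fun i => cell h (g i)) / X T - G (fun i => cell h (g i))) =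
          (mom (J T) (x T) (fun _ : Fin m => U h A) / X T - G (fun _ : Fin m => U h A)) -
          (m.factorial : ℝ) * (mom (J T) (x T) (fun i => cell h (f i)) / X T -
        G (fun i => cell h (f i))) := by
        rw [h1]
        simp only [add_sub_cancel_left]
      rw [h8] at h4
      linarith
    rcases le_or_gt (mom (J T) (x T) (fun i => cell h (f i)) / X T -
        G (fun i => cell h (f i))) 0 with h9 | h9
    · have : 0 ≤ 4 * (m : ℝ) ^ m / (r : ℝ) ^ m / Real.sqrt r := by positivity
      linarith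
    · have h10 : (1 : ℝ) ≤ m.factorial := by exact_mod_cast Nat.one_le_iff_ne_zero.2 (Nat.factorial_ne_zero m)
      nlinarith
  · have h1 : ∀ g ∈ Fintype.piFinset (fun _ : Fin m => A), ¬ Function.Injective g := by
      intro g hg hgi
      apply hinj
      rw [Fintype.mem_piFinset] at hg
      have h2 : m ≤ A.card := by
        have h3 : (Finset.univ.image g).card = m := by
          rw [Finset.card_image_of_injective _ hgi]
          simp
        rw [← h3]
        refine Finset.card_le_card ?_
        intro a ha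
        obtain ⟨i, -, rfl⟩ := Finset.mem_image.1 ha
        exact hg i
      have h3 : (Finset.univ.image f).card = (Finset.univ : Finset (Fin m)).card := by
        rw [← hA]
        simp only [Finset.card_univ, Fintype.card_fin]
        omega
      have h4 := Finset.card_image_iff.1 h3
      intro i j hij
      exact h4 (by simp) (by simp) hij
    have h2 := hsum _ (Finset.Subset.refl _) h1
    have h3 : mom (J T) (x T) (fun i => cell h (f i)) / X T ≤
        mom (J T) (x T) (fun _ : Fin m => U h A) / X T := by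
      rw [(hspl T).1]
      refine div_le_div_of_nonneg_right ?_ hXT.le
      exact Finset.single_le_sum (f := fun g : Fin m → ℤ => mom (J T) (x T)
        (fun i => cell h (g i))) (fun g _ => mom_nonneg _) hfA
    rw [← (hspl T).2] at h2
    have h4 := hGn f
    linarith

end Pool.Agent.N342.VP
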